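import Pool.Agent.H91.QO.Final

/-!
# SETH for linear, second order cone and semidefinite programs chosen after the formula

A pool (`Pool`) on a cell, that is a set of assignments, consists of a space of any finite
dimension, of a point of the space for every assignment, of linear matrix inequalities
`B0 i + ∑ k, y k • B i k ≥ 0` with symmetric matrices of orders `ord i` (order `1`: a linear
inequality) which hold at the points of the assignments in the cell, and of clause constraints.  A
clause constraint belongs to a clause (a clause may have many) and demands that an affine functional
is `≤ 0`; the functional takes values in `[-1, 1]` at the points of the cell and values `≤ 0` at the
points of the assignments in the cell which satisfy the clause.  The pool does not depend on the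
formula.  The size of a set of constraints is the total order of the matrices plus the number of
clause constraints plus one.

Constraints from the pools refute a formula with margin `de` if there are pools whose cells are
disjoint and cover the cube, and in each of them a set of matrix inequalities and a set of clause
constraints belonging to clauses of the formula, such that at every point which satisfies these
matrix inequalities the functional of one of these clause constraints is at least `de`.  All this is
chosen after the formula: branch and bound with cuts which depend on the formula.

For every `ε > 0` there are exponents `c k > 0` and `C k ≥ c k` for all `k ≥ 3`, with `c k` tending
to `1` and `C k` tending to infinity, such that for every `k ≥ 3` there are `K` and `γ > 0` with the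
following property.  For all large `n` there is a finite list of CNFs with `n` variables and at most
`K n` clauses, all of width exactly `k`, in each of which every assignment violates at least
`(1 - ε) m / 2 ^ k` of the `m` clauses, such that for all pools of total size at most
`2 ^ (C k * n)` at most a fraction `2 ^ (- γ n)` of the list is refuted with margin `2 ^ (- γ n)` by
constraints from the pools of total size at most `2 ^ (c k * n)`.

The definitions are in `Pool.Agent.H43.QO.Stmt`; clauses and the number of violated clauses are in
`Pool.Agent.H1.LP.Stmt`.
-/

namespace Pool.Agent.Results.MP_c62aed_lc.ConvexProgramSETH

theorem result : Pool.Agent.H43.QO.StatementO := Pool.Agent.H91.QO.statementO

end Pool.Agent.Results.MP_c62aed_lc.ConvexProgramSETH
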