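import Pool.Agent.H15.BOQ.All

/-!
# Cutting planes and monotone real circuits on random CNFs with the optimal exponent

The variables are `x_i` and `y_i`, `i : Fin n`. An assignment is a pair `(x, y)`.
-/

set_option autoImplicit false

namespace Pool.Agent.Results.MP_c62aed_lc.CuttingPlanesSETH

/-- A clause with `k` literals of `n` variables: `k` of the `n` variables and a sign for every
variable (only the signs of the chosen variables are used); its literals say that the chosen
variable number `i` has the value `c.2 i`. -/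
abbrev Clause (n k : ℕ) : Type := {A : Finset (Fin n) // A.card = k} × (Fin n → Bool)

/-- All literals of the clause `c` are false under `x`. -/
def Violates {n k : ℕ} (c : Clause n k) (x : Fin n → Bool) : Prop := ∀ i ∈ c.1.1, x i ≠ c.2 i

/-- `F = (C, D)` stands for the CNF with the clauses `C i ∨ D (i, j)`, `i < M`, `j < μ`, where `C i`
is a clause with `k` literals of the variables `x` and `D (i, j)` is a clause with `l` literals of
the variables `y`. -/
abbrev Formula (n k l M μ : ℕ) : Type := (Fin M → Clause n k) × (Fin M × Fin μ → Clause n l)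

/-- The clause number `c = (i, j)` of `F` is false under the assignment `(x, y)`. -/
def False2 {n k l M μ : ℕ} (F : Formula n k l M μ) (c : Fin M × Fin μ) (x y : Fin n → Bool) :
    Prop :=
  Violates (F.1 c.1) x ∧ Violates (F.2 c) y

/-- For one value of the variables `y`: every one of the inequalities `0 ≤ v i x`, `i < s`, for the
variables `x` follows from at most `t` earlier ones and at most `t` clauses of `F`. -/
def Derives {n k l M μ : ℕ} (F : Formula n k l M μ) (t s : ℕ) (v : ℕ → (Fin n → Bool) → ℝ)
    (y : Fin n → Bool) : Prop :=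
  ∀ i, i < s → ∃ (P : Finset ℕ) (T : Finset (Fin M × Fin μ)), P.card ≤ t ∧ T.card ≤ t ∧
    (∀ j ∈ P, j < i) ∧ ∀ x, (∀ j ∈ P, 0 ≤ v j x) → (∀ c ∈ T, ¬ False2 F c x y) → 0 ≤ v i x

/-- `h 0, .., h (s - 1)` are the functions computed by the `s` gates of a monotone real circuit
whose input is a set `S` of indices: every gate tells whether a certain index is in `S`, or it is a
nondecreasing real function of at most `t` earlier gates. -/
def Circuit {M : ℕ} (t s : ℕ) (h : ℕ → Set (Fin M) → ℝ) : Prop :=
  ∀ i, i < s → (∃ c : Fin M, ∀ S, (c ∈ S → h i S = 1) ∧ (c ∉ S → h i S = 0)) ∨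
    ∃ J : Finset ℕ, J.card ≤ t ∧ (∀ j ∈ J, j < i) ∧
      ∀ S S', (∀ j ∈ J, h j S ≤ h j S') → h i S ≤ h i S'

/-- The `i` for which the clause `C i` is true under `x`. -/
def SatBy {n k l M μ : ℕ} (F : Formula n k l M μ) (x : Fin n → Bool) : Set (Fin M) :=
  {i | ¬ Violates (F.1 i) x}

/-- The `i` for which the clause `C i` must be true when the variables `y` have the value `y`: some
`D (i, j)` is false under `y`. These clauses are the CNF `F_y` for the variables `x`. -/
def At {n k l M μ : ℕ} (F : Formula n k l M μ) (y : Fin n → Bool) : Set (Fin M) :=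
  {i | ∃ j, Violates (F.2 (i, j)) y}

/-- There is `C` such that the following holds for `0 < ε ≤ 1 / 4`, `2 ≤ t`, `n ≤ t`,
`C log₂ t ≤ ε ^ 2 k`, `C k ≤ ε ^ 2 l` and `C l ≤ ε n`. Consider the random CNFs `F` with the clauses
`C i ∨ D (i, j)`, `i < M`, `j < μ`, where `C i` has `k` literals of the `n` variables `x` and
`D (i, j)` has `l` literals of the `n` variables `y` (uniform sets of variables, uniform signs,
everything independent). For a value of the variables `y` let `F_y` be the CNF (for the variables
`x`) of the clauses `C i` for which some `D (i, j)` is false.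

Let `M ≤ 2 ^ ((1 + 2 ε) k)` and `μ 2 ^ (ε k) ≤ 2 ^ l`. All but a fraction `2 ^ (-n)` of the `F`
satisfy (1) and (2), where all objects may depend on `F`.

(1) Given `s` lines `0 ≤ f i (τ i y) x + g i y`, where `f i` and `g i` are arbitrary real functions
and `τ i y` is one of `K` messages, for at most `s K 2 ^ (4 ε n)` of the `y` they are a derivation
from `F` in which some line is false for at least half of the `x`, for instance the line `0 ≤ -1`;
every line follows, for this `y`, semantically from at most `t` earlier lines and at most `t`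
clauses of `F` (which may depend on `y`). For `K = 1` these are the lines `0 ≤ f i x + g i y`. So a
refutation, of any depth, has at least `2 ^ ((1 - 4 ε) n)` lines, for instance in cutting planes
with real coefficients, and it has at least `2 ^ ((1 - 4 ε - δ) n)` lines if the lines are Boolean
functions of `(x, y)` which can be computed from `x` and a message about `y` with `δ n` bits.

(2) Consider a monotone real circuit with `s` gates of fan-in at most `t`, whose input is a set of
indices `i < M`. For at most `s 2 ^ (4 ε n)` of the `y` some gate has a larger value at `F_y` than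
at the set of the `i` for which `C i` is true under `x`, for at least half of the `x`. So at least
`2 ^ ((1 - 4 ε) n)` gates are needed for deciding which subsets of the clauses `C 0, .., C (M - 1)`
(with `n` variables) are unsatisfiable. This is (1) with `K = 1` for the lines `h i (At F y) ≤
h i (SatBy F x)`, which are a derivation for every `y`.

(3) If `C t 2 ^ k ≤ ε ^ 2 M` and `C t 2 ^ (k + l) ≤ ε ^ 2 M μ`, then with a probability at least
`1 - 2 ^ (-t)` every assignment violates at least `(1 - ε) M μ / 2 ^ (k + l)` of the `M μ`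
clauses.

(4) The bound in (1) is optimal up to the factor `(M + 1) 2 ^ (4 ε n)`: if `F` is unsatisfiable,
then for every set `Y` there are `|Y| (M + 1)` lines `0 ≤ f i x + g i y` which are, for all `y` in
`Y`, a derivation in which some line is false for all `x`. -/
theorem result : ∃ C : ℕ, ∀ (ε : ℝ) (n t k l M μ : ℕ), 0 < ε → ε ≤ 1 / 4 → 2 ≤ t → n ≤ t →
    C * Nat.log 2 t ≤ ε ^ 2 * k → C * k ≤ ε ^ 2 * l → C * l ≤ ε * n →
      (M ≤ (2 : ℝ) ^ ((1 + 2 * ε) * k) → μ * (2 : ℝ) ^ (ε * k) ≤ 2 ^ l →
        2 ^ n * Nat.card {F : Formula n k l M μ // ¬ (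
          (∀ (s K : ℕ) (τ : ℕ → (Fin n → Bool) → Fin K) (f : ℕ → Fin K → (Fin n → Bool) → ℝ)
            (g : ℕ → (Fin n → Bool) → ℝ),
            (Nat.card {y // Derives F t s (fun i x => f i (τ i y) x + g i y) y ∧
              ∃ i < s, 2 ^ n ≤ 2 * Nat.card {x // f i (τ i y) x + g i y < 0}} : ℝ) ≤
                s * K * 2 ^ (4 * ε * n)) ∧
          ∀ (s : ℕ) (h : ℕ → Set (Fin M) → ℝ), Circuit t s h →
            (Nat.card {y // ∃ i < s,
              2 ^ n ≤ 2 * Nat.card {x // h i (SatBy F x) < h i (At F y)}} : ℝ) ≤
                s * 2 ^ (4 * ε * n))} ≤ Nat.card (Formula n k l M μ)) ∧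
      (C * t * 2 ^ k ≤ ε ^ 2 * M → C * t * 2 ^ (k + l) ≤ ε ^ 2 * (M * μ) →
        2 ^ t * Nat.card {F : Formula n k l M μ //
          ∃ x y, (Nat.card {c // False2 F c x y} : ℝ) < (1 - ε) * (M * μ) / 2 ^ (k + l)} ≤
            Nat.card (Formula n k l M μ)) ∧
      ∀ F : Formula n k l M μ, (∀ x y, ∃ c, False2 F c x y) → ∀ Y : Finset (Fin n → Bool),
        ∃ f g : ℕ → (Fin n → Bool) → ℝ, ∀ y ∈ Y,
          Derives F 1 (Y.card * (M + 1)) (fun i x => f i x + g i y) y ∧
            ∃ i < Y.card * (M + 1), ∀ x, f i x + g i y < 0 := by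
  obtain ⟨C, hC⟩ := Pool.Agent.H15.BOQ.main
  refine ⟨C, fun ε n t k l M μ h0 h1 h2 h3 h4 h5 h6 => ?_⟩
  obtain ⟨hA, hB⟩ := hC ε n t k l M μ h0 h1 h2 h3 h4 h5 h6
  exact ⟨hA, hB, fun F hF Y => Pool.Agent.H15.BOQ.opt F hF Y⟩

end Pool.Agent.Results.MP_c62aed_lc.CuttingPlanesSETH
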