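import Pool.Agent.H97.SHA.All

/-!
# Short lines at the scale of SETH
-/

set_option autoImplicit false

open Pool.Agent.H97.SHL Pool.Agent.H97.SHA

namespace Pool.Agent.Results.MP_c62aed_lc.ShortLinesSETH

/-- For every `ε > 0` there is `C` such that for `C ≤ n ≤ t`, `C log₂ t ≤ n` there is a list of
unsatisfiable CNF formulas with `n` variables and at most `t ^ C` clauses with at most `C log₂ t`
literals with the following property. For every family `𝓛` of at most `2 ^ t` Boolean functions of
the `n` variables, all but less than a fraction `2 ^ (-t)` of the formulas `F` of the list are hard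
for `𝓛` (`Hard`): with all lines in `𝓛` and every consequence of at most `t` clauses as a free axiom,
tree-like refutations of `F` have at least `2 ^ ((1 - ε) n)` lines; decision trees of depth at most
`t` which branch on functions of `𝓛` have at least `2 ^ ((1 - ε) n)` leaves; refutations (of any
depth) which keep at most `t` lines in memory have at least `2 ^ ((1 - ε) n)` steps; refutations in
which every path has at most `(1 + ρ) n` inferences with two premises have at least
`2 ^ ((1 - ρ - ε) n)` lines, with at most `K n` such inferences at least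
`2 ^ ((1 / (2 K - 1) - ε) n)` lines. -/
theorem result : ∀ ε : ℝ, 0 < ε → ∃ C : ℕ, ∀ n t : ℕ, C ≤ n → n ≤ t → C * Nat.log 2 t ≤ n →
    ∃ (ι : Type) (_ : Fintype ι) (F : ι → CNF n),
      (∀ i, (F i).card ≤ t ^ C ∧ (∀ D ∈ F i, D.card ≤ C * Nat.log 2 t) ∧
        ∀ x, ∃ D ∈ F i, Falsified D x) ∧
      ∀ 𝓛 : Finset (Line n), 𝓛.card ≤ 2 ^ t →
        2 ^ t * Nat.card {i // ¬ Hard ε t 𝓛 (F i)} < Nat.card ι :=
  main

end Pool.Agent.Results.MP_c62aed_lc.ShortLinesSETH
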