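import Pool.Agent.H41.SS.All3

/-!
MP_c62aed_lc: resolution on random k-CNFs, the exact savings.

The definitions used by the statement are in `Pool/Agent/H97/RK/Stmt.lean`,
`Pool/Agent/H97/RK/Stmt2.lean`, `Pool/Agent/H97/RL/Stmt.lean`, `Pool/Agent/H97/RL/Stmt3.lean`, `Pool/Agent/H41/SS/Stmt.lean` (`lg`) and `Pool/Agent/H41/SS/StmtV.lean`.
-/

namespace Pool.Agent.Results.MP_c62aed_lc.SuperStrongSETH

open Pool.Agent.H97.RK Pool.Agent.H97.RL Pool.Agent.H41.SS

/-- There is `K` such that for all `k ≥ K`, `n ≥ K k` and all `m`, all but the fraction `1 / n` of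
the formulas `F` with `n` variables and `m = Δ 2 ^ k n` clauses of `k` literals have the properties
`HdV K F`. The same holds for the formulas whose clauses have `k` distinct variables.

`HdV K F`: with `L = log (k (1 + Δ))` and `μ = 1 / √k + L / k` every resolution refutation of `F`
with `S` lines satisfies the following. We say that a refutation reuses only lines of a set if each
of its other lines, unless it is obtained from a clause of `F`, is used at most once.
* `tree`: if it reuses only lines with at most `(L / k) n` literals, then
  `S ≥ 2 ^ ((1 - K L / k) n)`.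
* `regular`: if no variable is resolved twice on a path, then `S ≥ 2 ^ ((1 - K L / k) n)`.
* `upper`: if `1 ≤ Δ ≤ 2 ^ k`, then some refutation which reuses no line and is regular has
  `S ≤ 2 ^ ((1 - L / (4 k)) n)` lines.
* `parts`: let `1 ≤ R ≤ k` and `f = L / k + (1 + log (k / R)) √((R - 1) / k)`. Suppose that it
  reuses only lines of `U ∪ V`, where the lines of `U` have at most `f n` literals. If on each path
  which starts in the empty line or in a line of `U` and contains no line of `U` after its beginning
  at most `ρ n` variables are resolved in more than `R` of the parts into which it is cut by the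
  lines of `V`, then `S ≥ 2 ^ ((1 - ρ - K f) n)`.
* `lemmas`: if it reuses only lines of `U` and `M` of them have more than `w` literals, then
  `S (3 / 2) ^ w (M + 1) ^ (3 / 2) ≥ 2 ^ ((1 - K μ log k) n)`.
* `width`: some line has at least `(1 - K μ) n` literals.
* `general`: `S ≥ (3 / 2) ^ n 2 ^ (- K μ log k n)`. -/
theorem result :
    ∃ K : ℕ, 1 ≤ K ∧ ∀ k n m : ℕ, K ≤ k → K * k ≤ n →
      (n : ℝ) * Nat.card {F : Fml n k m // ¬ HdV K F} ≤ Nat.card (Fml n k m) ∧
      (n : ℝ) * Nat.card {F : Fml n k m // Dist F ∧ ¬ HdV K F} ≤
        Nat.card {F : Fml n k m // Dist F} :=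
  mainSV

end Pool.Agent.Results.MP_c62aed_lc.SuperStrongSETH
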